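import Pool.Agent.Helper27.NB.Defs

/-!
# Open paths: the start and the last time
-/

set_option autoImplicit false

namespace Pool.Agent.Helper1.NB

open Pool.Agent.Helper19.NF (Prog obs val ring out CF Pos Dir pos)
open Pool.Agent.Helper27.NB

section times

variable {B Λ Z : Type} [Fintype Λ] {a : ℕ}

theorem rd_zero (o : ℕ → (B × Λ) ⊕ Z) (b : B) : rd o b 0 = 0 := by
  unfold rd
  have h : {l : Λ | ∃ j < 0, o j = Sum.inl (b, l)} = ∅ := by
    ext l
    simp
  rw [h, Set.ncard_empty]

theorem rd_mono (o : ℕ → (B × Λ) ⊕ Z) (b : B) {t t' : ℕ} (h : t ≤ t') : rd o b t ≤ rd o b t' :=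
  Set.ncard_le_ncard (fun _ ⟨j, hj, hl⟩ => ⟨j, lt_of_lt_of_le hj h, hl⟩) (Set.toFinite _)

/-- In one step the number grows by at most one, and only if a new symbol is observed. -/
theorem rd_succ (o : ℕ → (B × Λ) ⊕ Z) (b : B) (t : ℕ) : rd o b (t + 1) ≤ rd o b t ∨
    (New o b t ∧ rd o b (t + 1) ≤ rd o b t + 1) := by
  classical
  by_cases h : New o b t
  · refine Or.inr ⟨h, ?_⟩
    obtain ⟨l, hl, -⟩ := h
    have h1 : {l : Λ | ∃ j < t + 1, o j = Sum.inl (b, l)} ⊆ insert l {l : Λ | ∃ j < t, o j = Sum.inl (b, l)} := by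
      rintro l' ⟨j, hj, hl'⟩
      rcases Nat.lt_succ_iff_lt_or_eq.1 hj with h1 | h1
      · exact Or.inr ⟨j, h1, hl'⟩
      · left
        rw [h1, hl] at hl'
        exact (Prod.mk.inj (Sum.inl_injective hl')).2.symm
    exact (Set.ncard_le_ncard h1 (Set.toFinite _)).trans (Set.ncard_insert_le _ _)
  · left
    refine Set.ncard_le_ncard ?_ (Set.toFinite _)
    rintro l ⟨j, hj, hl⟩
    rcases Nat.lt_succ_iff_lt_or_eq.1 hj with h1 | h1
    · exact ⟨j, h1, hl⟩
    · subst h1
      by_contra h2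
      refine h ⟨l, hl, fun i hi h3 => h2 ⟨i, hi, h3⟩⟩

/-- A block of which more than `a` symbols have been observed has become ripe. -/
theorem exists_rip {o : ℕ → (B × Λ) ⊕ Z} {b : B} {t : ℕ} (h : a + 1 ≤ rd o b t) : ∃ r < t, Rip a o b r := by
  classical
  have hex : ∃ t, a + 1 ≤ rd o b t := ⟨t, h⟩
  have h1 := Nat.find_spec hex
  have h2 := Nat.find_min' hex h
  obtain ⟨r, hr⟩ : ∃ r, Nat.find hex = r + 1 := by
    rcases h3 : Nat.find hex with _ | r
    · rw [h3, rd_zero] at h1
      omega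
    · exact ⟨r, rfl⟩
  have h3 := Nat.find_min hex (m := r) (by omega)
  rw [hr] at h1 h2
  refine ⟨r, by omega, ?_⟩
  rcases rd_succ o b r with h4 | ⟨h4, h5⟩
  · omega
  · exact ⟨h4, by omega⟩

/-- Early symbols stay early when the observations start later. -/
theorem early_shift {o : ℕ → (B × Λ) ⊕ Z} {b : B} {τ t : ℕ}
    (h : Early a (fun j => o (j + τ)) b (t + 1)) : Early a (fun j => o (j + (τ + 1))) b t := by
  obtain ⟨⟨l, hl, hnew⟩, hrd⟩ := h
  refine ⟨⟨l, ?_, fun j hj => ?_⟩, le_trans (Set.ncard_le_ncard ?_ (Set.toFinite _)) hrd⟩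
  · change o (t + (τ + 1)) = _
    change o (t + 1 + τ) = _ at hl
    rw [show t + (τ + 1) = t + 1 + τ by omega]
    exact hl
  · have h1 := hnew (j + 1) (by omega)
    change o (j + 1 + τ) ≠ _ at h1
    change o (j + (τ + 1)) ≠ _
    rw [show j + (τ + 1) = j + 1 + τ by omega]
    exact h1
  · rintro l' ⟨j, hj, hl'⟩
    refine ⟨j + 1, by omega, ?_⟩
    change o (j + (τ + 1)) = _ at hl'
    change o (j + 1 + τ) = _
    rw [show j + 1 + τ = j + (τ + 1) by omega]
    exact hl'

end times

variable {n m : ℕ} [NeZero m] {B Λ Z : Type} [AddCommGroup B] [Fintype Λ] {a : ℕ}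

/-- B4: the last time with an open path. -/
theorem exists_close (hn : 1 ≤ n) (x0 : Pos n m → B) (I : B → Dir m → B) (o : ℕ → (B × Λ) ⊕ Z) (L : ℕ)
    (hL : ∀ j, L ≤ j → ∃ y, o j = Sum.inr y) (h0 : ∃ w t, InR a x0 I o n w t) :
    ∃ τ, (∀ w t, ¬ InR a x0 I (fun j => o (j + τ)) n w t) ∧
      ∃ c s, Chain a x0 I (fun j => o (j + τ)) c s (n - 1) := by
  classical
  have hex : ∃ τ, ∀ w t, ¬ InR a x0 I (fun j => o (j + τ)) n w t := by
    refine ⟨L, ?_⟩
    rintro w t ⟨c, s, ⟨hc, -⟩, -, -⟩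
    obtain ⟨⟨l, hl, -⟩, -⟩ := hc n hn le_rfl
    obtain ⟨y, hy⟩ := hL (s n + L) (by omega)
    change o (s n + L) = _ at hl
    rw [hy] at hl
    simp at hl
  have hspec := Nat.find_spec hex
  set τ := Nat.find hex with hτ
  rcases τ with _ | τ
  · exfalso
    obtain ⟨w, t, hw⟩ := h0
    exact hspec w t hw
  · have hmin := Nat.find_min hex (m := τ) (by omega)
    push Not at hmin
    obtain ⟨w, t, c, s, ⟨hc, hs⟩, -, -⟩ := hmin
    -- the times above the last level are positive
    have hpos : ∀ j, 1 ≤ j → j < n → 1 ≤ s j := by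
      intro j hj hjn
      have h1 := hs j hj hjn
      omega
    refine ⟨τ + 1, hspec, c, fun j => s j - 1, fun j hj hjn => ?_, fun j hj hjn => ?_⟩
    · refine early_shift ?_
      rw [Nat.sub_add_cancel (hpos j hj (by omega))]
      exact hc j hj (by omega)
    · have h1 := hs j hj (by omega)
      have h2 := hpos (j + 1) (by omega) (by omega)
      change s (j + 1) - 1 < s j - 1
      omega

/-- B5: if for no level `l` all letters of the node `(l, 0)` get ripe when a letter of its neighbour below is not ripe,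
and the letters of the node `0` of the level `1` get ripe, then a path is open. -/
theorem open_start (hn : 1 ≤ n) (x0 : Pos n m → B) (I : B → Dir m → B) (_hI : CF (ring n m) x0 n I)
    (o : ℕ → (B × Λ) ⊕ Z) (h1 : ∀ t : ZMod m, ∃ r, Rip a o (val (ring n m) x0 I (n - 1) (0, t)) r)
    (h2 : ∀ l, 1 ≤ l → l < n → ∀ t' : ZMod m, ¬ ∀ t : ZMod m, ∃ r, Rip a o (val (ring n m) x0 I (n - l) (0, t)) r ∧
      rd o (val (ring n m) x0 I (n - l - 1) (0, t')) r ≤ a) :
    ∃ w t, InR a x0 I o n w t := by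
  classical
  -- all the letters of the node `0` of every level get ripe, before the last one of the level above
  have key : ∀ l : ℕ, ∃ (t : ZMod m) (r : ℕ), 1 ≤ l → l ≤ n →
      Rip a o (val (ring n m) x0 I (n - l) (0, t)) r ∧
        ∀ t' : ZMod m, ∃ r' ≤ r, Rip a o (val (ring n m) x0 I (n - l) (0, t')) r' := by
    intro l
    by_cases hl : 1 ≤ l ∧ l ≤ n
    · have hall : ∀ t : ZMod m, ∃ r, Rip a o (val (ring n m) x0 I (n - l) (0, t)) r := by
        obtain ⟨hl1, hln⟩ := hl
        induction l with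
        | zero => omega
        | succ l ih =>
          rcases Nat.eq_zero_or_pos l with h0 | h0
          · subst h0
            exact h1
          · intro t'
            have h3 := h2 l h0 (by omega) t'
            push Not at h3
            obtain ⟨t, ht⟩ := h3
            obtain ⟨r, hr⟩ := ih h0 (by omega) t
            obtain ⟨r', -, hr'⟩ := exists_rip (Nat.succ_le_of_lt (ht r hr))
            exact ⟨r', by rw [show n - (l + 1) = n - l - 1 by omega]; exact hr'⟩
      choose f hf using hall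
      obtain ⟨t, ht⟩ := Finite.exists_max f
      exact ⟨t, f t, fun _ _ => ⟨hf t, fun t' => ⟨f t', ht t', hf t'⟩⟩⟩
    · exact ⟨0, 0, fun h3 h4 => absurd ⟨h3, h4⟩ hl⟩
  choose T s hTs using key
  set t : ℕ → ZMod m := fun l => if l = 0 then 0 else T l with ht
  set c : ℕ → Dir m := fun l => (false, t (l + 1) - t l) with hc
  have hpos : ∀ l, pos n c l = (0, t l) := by
    intro l
    induction l with
    | zero => simp [pos, ht]
    | succ l ih =>
      rw [pos, ih]
      simp [ring, hc]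
  have htT : ∀ l, 1 ≤ l → t l = T l := fun l hl => if_neg (by omega)
  refine ⟨pos n c n, s n, c, s, ⟨fun j hj hjn => ?_, fun j hj hjn => ?_⟩, rfl, rfl⟩
  · obtain ⟨⟨h3, h4⟩, -⟩ := hTs j hj hjn
    rw [hpos, htT j hj]
    exact ⟨h3, h4.le⟩
  · obtain ⟨-, h5⟩ := hTs j hj hjn.le
    obtain ⟨h3, -⟩ := hTs (j + 1) (by omega) (by omega)
    have h6 := h2 j hj hjn (T (j + 1))
    push Not at h6
    obtain ⟨t', ht'⟩ := h6
    obtain ⟨r', hr', h7⟩ := h5 t'
    have h8 := ht' r' h7
    by_contra hcon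
    push Not at hcon
    have h9 := rd_mono o (val (ring n m) x0 I (n - j - 1) (0, T (j + 1))) (hr'.trans hcon)
    have h10 := h3.2
    rw [show n - (j + 1) = n - j - 1 by omega] at h10
    omega

end Pool.Agent.Helper1.NB
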